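import Mathlib
import Pool.Agent.helper81.DI.SpecB

set_option autoImplicit false

namespace Pool.Agent.DI

open Pool.Agent.helper58.DC

section

variable {H : Type} [Group H]

theorem B9_funMap_mul (α β : MulAut H) (ψ : H → ℂ) :
    funMap (α * β) ψ = funMap α (funMap β ψ) := by
  funext g
  simp [funMap, mul_inv_rev]

theorem B9_funMap_one (ψ : H → ℂ) : funMap (1 : MulAut H) ψ = ψ := by
  funext g
  simp [funMap]

/-- conjugation action on functions -/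
@[instance_reducible] def B9_act : MulAction H (H → ℂ) where
  smul n ψ := funMap (MulAut.conj n) ψ
  one_smul ψ := by
    show funMap (MulAut.conj 1) ψ = ψ
    rw [map_one, B9_funMap_one]
  mul_smul a b ψ := by
    show funMap (MulAut.conj (a * b)) ψ = funMap (MulAut.conj a) (funMap (MulAut.conj b) ψ)
    rw [map_mul, B9_funMap_mul]

/-- the orbit -/
def B9_orb (ψ : H → ℂ) : Set (H → ℂ) :=
  {ψ' | ∃ n ∈ (⊤ : Subgroup H), ψ' = funMap (MulAut.conj n) ψ}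

theorem B9_mem_orb (ψ : H → ℂ) : ψ ∈ B9_orb ψ :=
  ⟨1, Subgroup.mem_top _, by rw [map_one, B9_funMap_one]⟩

theorem B9_orb_fin [Finite H] (ψ : H → ℂ) : (B9_orb ψ).Finite := by
  have h : B9_orb ψ = Set.range (fun n : H => funMap (MulAut.conj n) ψ) := by
    ext x
    constructor
    · rintro ⟨n, _, rfl⟩; exact ⟨n, rfl⟩
    · rintro ⟨n, rfl⟩; exact ⟨n, Subgroup.mem_top _, rfl⟩
  rw [h]
  exact Set.finite_range _

theorem B9_orb_card [Finite H] (ψ : H → ℂ) :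
    Nat.card (B9_orb ψ) * Nat.card (stF (⊤ : Subgroup H) ψ) = Nat.card H := by
  let _ := B9_act (H := H)
  have h1 : B9_orb ψ = MulAction.orbit H ψ := by
    ext x
    constructor
    · rintro ⟨n, _, rfl⟩; exact ⟨n, rfl⟩
    · rintro ⟨n, rfl⟩; exact ⟨n, Subgroup.mem_top _, rfl⟩
  have h2 : stF (⊤ : Subgroup H) ψ = MulAction.stabilizer H ψ := by
    ext n
    constructor
    · rintro ⟨_, h⟩; exact h
    · intro h; exact ⟨Subgroup.mem_top _, h⟩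
  rw [h1, h2, Nat.card_congr (MulAction.orbitEquivQuotientStabilizer H ψ)]
  exact (Subgroup.card_eq_card_quotient_mul_card_subgroup (MulAction.stabilizer H ψ)).symm

theorem B9_orb_sub (hIF : IF_stmt) [Finite H] (K : Subgroup H) (hK : K.Normal) (ψ : H → ℂ)
    (hψ : ψ ∈ IrrOn K) : B9_orb ψ ⊆ IrrOn K := by
  rintro x ⟨n, _, rfl⟩
  have h := ((hIF H K).2 ψ hψ).2.2 (MulAut.conj n)
  have h2 : K.map (MulAut.conj n).toMonoidHom = K := by
    ext y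
    constructor
    · rintro ⟨z, hz, rfl⟩
      exact hK.conj_mem z hz n
    · intro hy
      refine ⟨n⁻¹ * y * n, ?_, ?_⟩
      · have := hK.conj_mem y hy n⁻¹
        simpa using this
      · show n * (n⁻¹ * y * n) * n⁻¹ = y
        group
  rw [h2] at h
  exact h

end

open Classical in
theorem B9_ip (hIF : IF_stmt) (hB2 : B2_stmt) {H : Type} [Group H] [Fintype H] (K : Subgroup H)
    (hK : K.Normal) (ψ : H → ℂ) (hψ : ψ ∈ IrrOn K) (φ : H → ℂ) (hφ : OverP K ⊤ φ ψ) (χ : H → ℂ)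
    (hχ : χ ∈ IrrOn K) :
    ∑ x ∈ (K : Set H).toFinset, φ x * χ x⁻¹ = if χ ∈ B9_orb ψ then (Nat.card K : ℂ) else 0 := by
  have hfin := B9_orb_fin ψ
  have h1 : ∀ x ∈ (K : Set H).toFinset, φ x * χ x⁻¹ = ∑ ψ' ∈ hfin.toFinset, ψ' x * χ x⁻¹ := by
    intro x hx
    have hx' : x ∈ K := by simpa using hx
    have h2 := hφ x hx'
    have h3 : (∑ᶠ ψ' ∈ {ψ' : H → ℂ | ∃ n ∈ (⊤ : Subgroup H), ψ' = funMap (MulAut.conj n) ψ}, ψ' x) =
        ∑ ψ' ∈ hfin.toFinset, ψ' x := finsum_mem_eq_finite_toFinset_sum _ hfin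
    rw [h2, h3, Finset.sum_mul]
  rw [Finset.sum_congr rfl h1, Finset.sum_comm]
  have h4 : ∀ ψ' ∈ hfin.toFinset, ∑ x ∈ (K : Set H).toFinset, ψ' x * χ x⁻¹ =
      if ψ' = χ then (Nat.card K : ℂ) else 0 := by
    intro ψ' hψ'
    have h5 : ψ' ∈ IrrOn K := B9_orb_sub hIF K hK ψ hψ ((Set.Finite.mem_toFinset _).1 hψ')
    have h6 := ((hB2 H K).2 ψ' h5).2.2.2.2 χ hχ
    have h7 : ∑ x ∈ (K : Set H).toFinset, ψ' x * χ x⁻¹ = ∑ᶠ g : H, ψ' g * χ g⁻¹ := by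
      rw [finsum_eq_sum_of_fintype]
      refine Finset.sum_subset (Finset.subset_univ _) ?_
      intro x _ hx
      have hx' : x ∉ K := by simpa using hx
      rw [h5.1 x hx', zero_mul]
    rw [h7, h6]
    by_cases hc : ψ' = χ
    · rw [if_pos hc, if_pos hc]
    · rw [if_neg hc, if_neg hc]
  rw [Finset.sum_congr rfl h4, Finset.sum_ite_eq']
  by_cases hc : χ ∈ B9_orb ψ
  · rw [if_pos ((Set.Finite.mem_toFinset _).2 hc), if_pos hc]
  · rw [if_neg (fun h => hc ((Set.Finite.mem_toFinset _).1 h)), if_neg hc]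

open Classical in
theorem B9_ip2 (hIF : IF_stmt) (hB2 : B2_stmt) {H : Type} [Group H] [Fintype H] (K : Subgroup H)
    (hK : K.Normal) (ψ : H → ℂ) (hψ : ψ ∈ IrrOn K) (φ₁ : H → ℂ) (hφ : OverP K ⊤ φ₁ ψ) (φ : H → ℂ)
    (I : Finset (H → ℂ)) (hI : ∀ χ ∈ I, χ ∈ IrrOn K) (m : (H → ℂ) → ℕ)
    (hm : ∀ x ∈ K, φ x = ∑ χ ∈ I, (m χ : ℂ) * χ x) :
    ∑ x ∈ (K : Set H).toFinset, φ₁ x * φ x⁻¹ =
      (Nat.card K : ℂ) * ((∑ χ ∈ I, if χ ∈ B9_orb ψ then m χ else 0 : ℕ) : ℂ) := by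
  have h1 : ∀ x ∈ (K : Set H).toFinset, φ₁ x * φ x⁻¹ =
      ∑ χ ∈ I, (m χ : ℂ) * (φ₁ x * χ x⁻¹) := by
    intro x hx
    have hx' : x ∈ K := by simpa using hx
    rw [hm x⁻¹ (K.inv_mem hx'), Finset.mul_sum]
    refine Finset.sum_congr rfl (fun χ _ => ?_)
    ring
  rw [Finset.sum_congr rfl h1, Finset.sum_comm, Nat.cast_sum, Finset.mul_sum]
  refine Finset.sum_congr rfl (fun χ hχ => ?_)
  rw [← Finset.mul_sum, B9_ip hIF hB2 K hK ψ hψ φ₁ hφ χ (hI χ hχ)]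
  split_ifs
  · ring
  · simp

theorem B9 (hIF : IF_stmt) (hB1 : B1_stmt) (hB2 : B2_stmt) (hB3 : B3_stmt) (hB5 : B5_stmt)
    (hB6 : B6_stmt) (hB8 : B8_stmt) (hB9b : B9b_stmt) : B9_stmt := by
  classical
  intro H _ _ K hcyc
  have hK : K.Normal := hcyc.1
  let _ : Fintype H := Fintype.ofFinite H
  have hKc : (Nat.card K : ℂ) ≠ 0 := by
    have : 0 < Nat.card K := Nat.card_pos
    exact_mod_cast this.ne'
  have hKf : ∀ f : H → ℂ, ∑ᶠ x ∈ (K : Set H), f x = ∑ x ∈ (K : Set H).toFinset, f x := by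
    intro f
    rw [← finsum_mem_coe_finset, Set.coe_toFinset]
  obtain ⟨Λ, _, _, l, hl, hcard, hl1, hl0⟩ := hB5 H K hcyc
  -- two characters with positive inner product
  have key : ∀ φ₁ ∈ Irr H, ∀ φ ∈ Irr H, ∀ N : ℕ,
      ∑ x ∈ (K : Set H).toFinset, φ₁ x * φ x⁻¹ = (Nat.card K : ℂ) * N →
      Nat.card {a : Λ // ∀ x, ((l a x : ℂˣ) : ℂ) * φ₁ x = φ x} = N := by
    intro φ₁ h₁ φ h₂ N hN
    have h3 := hB8 H K Λ l hcard hl1 hl0 φ₁ h₁ φ h₂
    rw [hKf, hN] at h3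
    have h4 := mul_left_cancel₀ hKc h3
    exact_mod_cast h4.symm
  have orbself : ∀ ψ ∈ IrrOn K, ∀ φ : H → ℂ, OverP K ⊤ φ ψ → ∀ x ∈ K,
      φ x = ∑ χ ∈ (B9_orb_fin ψ).toFinset, (((fun _ => 1 : (H → ℂ) → ℕ) χ : ℕ) : ℂ) * χ x := by
    intro ψ hψ φ hφ x hx
    have h2 := hφ x hx
    have h3 : (∑ᶠ ψ' ∈ {ψ' : H → ℂ | ∃ n ∈ (⊤ : Subgroup H), ψ' = funMap (MulAut.conj n) ψ}, ψ' x) =
        ∑ ψ' ∈ (B9_orb_fin ψ).toFinset, ψ' x := finsum_mem_eq_finite_toFinset_sum _ (B9_orb_fin ψ)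
    rw [h2, h3]
    refine Finset.sum_congr rfl (fun χ _ => ?_)
    simp
  refine ⟨?_, ?_, ?_⟩
  · intro φ hφ
    obtain ⟨m, hm⟩ := hB3 H K φ hφ
    have hfin := (hB2 H K).1
    have hm' : ∀ x ∈ K, φ x = ∑ χ ∈ hfin.toFinset, (m χ : ℂ) * χ x := by
      intro x hx
      rw [hm x hx, finsum_mem_eq_finite_toFinset_sum _ hfin]
    obtain ⟨n, hn, hn1, _⟩ := ((hB1 H).2 φ hφ).1
    have h1 : φ 1 ≠ 0 := by
      rw [hn1]; exact_mod_cast hn.ne'
    rw [hm' 1 K.one_mem] at h1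
    obtain ⟨ψ, hψ, hψm⟩ := Finset.exists_ne_zero_of_sum_ne_zero h1
    have hψI : ψ ∈ IrrOn K := (Set.Finite.mem_toFinset _).1 hψ
    have hmψ : m ψ ≠ 0 := by
      intro h0
      rw [h0] at hψm
      simp at hψm
    obtain ⟨φ₁, hφ₁, hov⟩ := hB9b H K hcyc ψ hψI
    have h5 := B9_ip2 hIF hB2 K hK ψ hψI φ₁ hov φ hfin.toFinset
      (fun χ hχ => (Set.Finite.mem_toFinset _).1 hχ) m hm'
    have h6 := key φ₁ hφ₁ φ hφ _ h5
    have h7 : 0 < ∑ χ ∈ hfin.toFinset, if χ ∈ B9_orb ψ then m χ else 0 := by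
      have h8 := Finset.single_le_sum (f := fun χ => if χ ∈ B9_orb ψ then m χ else 0)
        (fun _ _ => Nat.zero_le _) hψ
      have h9 : (if ψ ∈ B9_orb ψ then m ψ else 0) = m ψ := if_pos (B9_mem_orb ψ)
      have h10 : m ψ ≤ ∑ χ ∈ hfin.toFinset, if χ ∈ B9_orb ψ then m χ else 0 := by
        rw [← h9]; exact h8
      omega
    rw [← h6] at h7
    obtain ⟨a, ha⟩ := (Finite.card_pos_iff.1 h7)
    refine ⟨ψ, hψI, ?_⟩
    intro x hx
    rw [← ha x, hl1 a x hx, ← hov x hx]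
    simp
  · intro ψ hψ
    obtain ⟨φ₁, hφ₁, hov⟩ := hB9b H K hcyc ψ hψ
    have hcO : (∑ χ ∈ (B9_orb_fin ψ).toFinset, if χ ∈ B9_orb ψ then 1 else 0) =
        Nat.card (B9_orb ψ) := by
      have h1 : ∀ χ ∈ (B9_orb_fin ψ).toFinset, (if χ ∈ B9_orb ψ then 1 else 0) = 1 := by
        intro χ hχ
        exact if_pos ((Set.Finite.mem_toFinset _).1 hχ)
      rw [Finset.sum_congr rfl h1, Finset.sum_const, smul_eq_mul, mul_one]
      have h2 := Nat.card_coe_set_eq (B9_orb ψ)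
      rw [h2, Set.ncard_eq_toFinset_card _ (B9_orb_fin ψ)]
    have hfib : ∀ φ ∈ Irr H, OverP K ⊤ φ ψ →
        Nat.card {a : Λ // ∀ x, ((l a x : ℂˣ) : ℂ) * φ₁ x = φ x} = Nat.card (B9_orb ψ) := by
      intro φ hφ hov'
      have h5 := B9_ip2 hIF hB2 K hK ψ hψ φ₁ hov φ (B9_orb_fin ψ).toFinset
        (fun χ hχ => B9_orb_sub hIF K hK ψ hψ ((Set.Finite.mem_toFinset _).1 hχ)) (fun _ => 1)
        (orbself ψ hψ φ hov')
      rw [hcO] at h5
      exact key φ₁ hφ₁ φ hφ _ h5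
    -- the map from Λ
    have hS : Nat.card {φ : H → ℂ // φ ∈ Irr H ∧ OverP K ⊤ φ ψ} * Nat.card (B9_orb ψ) =
        Nat.card Λ := by
      let _ : Fintype Λ := Fintype.ofFinite Λ
      have hSf : Finite {φ : H → ℂ // φ ∈ Irr H ∧ OverP K ⊤ φ ψ} :=
        ((hB1 H).1.subset (fun φ h => h.1)).to_subtype
      let _ : Fintype {φ : H → ℂ // φ ∈ Irr H ∧ OverP K ⊤ φ ψ} := Fintype.ofFinite _
      let F : Λ → {φ : H → ℂ // φ ∈ Irr H ∧ OverP K ⊤ φ ψ} := fun a =>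
        ⟨fun x => ((l a x : ℂˣ) : ℂ) * φ₁ x, hB6 H φ₁ hφ₁ (l a), by
          intro x hx
          show ((l a x : ℂˣ) : ℂ) * φ₁ x = _
          rw [hl1 a x hx, ← hov x hx]
          simp⟩
      have h1 : Nat.card Λ = ∑ φ : {φ : H → ℂ // φ ∈ Irr H ∧ OverP K ⊤ φ ψ},
          Nat.card {a : Λ // F a = φ} := by
        rw [← Nat.card_sigma]
        exact Nat.card_congr (Equiv.sigmaFiberEquiv F).symm
      have h2 : ∀ φ : {φ : H → ℂ // φ ∈ Irr H ∧ OverP K ⊤ φ ψ},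
          Nat.card {a : Λ // F a = φ} = Nat.card (B9_orb ψ) := by
        intro φ
        rw [← hfib φ.1 φ.2.1 φ.2.2]
        refine Nat.card_congr (Equiv.subtypeEquivRight ?_)
        intro a
        constructor
        · intro h x
          have := congrArg Subtype.val h
          exact congrFun this x
        · intro h
          apply Subtype.ext
          funext x
          exact h x
      rw [h1, Finset.sum_congr rfl (fun φ _ => h2 φ), Finset.sum_const, smul_eq_mul,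
        Finset.card_univ, Nat.card_eq_fintype_card]
    have h1 := B9_orb_card ψ
    have h2 : 0 < Nat.card (B9_orb ψ) := by
      have : Finite (B9_orb ψ) := (B9_orb_fin ψ).to_subtype
      have : Nonempty (B9_orb ψ) := ⟨⟨ψ, B9_mem_orb ψ⟩⟩
      exact Nat.card_pos
    have h3 : Nat.card (B9_orb ψ) *
        (Nat.card {φ : H → ℂ // φ ∈ Irr H ∧ OverP K ⊤ φ ψ} * Nat.card K) =
        Nat.card (B9_orb ψ) * Nat.card (stF (⊤ : Subgroup H) ψ) := by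
      rw [h1, ← hcard, ← hS]
      ring
    exact Nat.eq_of_mul_eq_mul_left h2 h3
  · intro φ ψ hψ ψ' hψ' h1 h2
    have h3 := B9_ip hIF hB2 K hK ψ' hψ' φ h2 ψ' hψ'
    rw [if_pos (B9_mem_orb ψ')] at h3
    have h4 := B9_ip hIF hB2 K hK ψ hψ φ h1 ψ' hψ'
    rw [h3] at h4
    by_cases hc : ψ' ∈ B9_orb ψ
    · obtain ⟨n, _, hn⟩ := hc
      exact ⟨n, hn⟩
    · rw [if_neg hc] at h4
      exact absurd h4 hKc

end Pool.Agent.DI
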