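import Mathlib
import Pool.Agent.helper81.DI.SpecC

set_option autoImplicit false

namespace Pool.Agent.DI

open Pool.Agent.helper58.DC

theorem C14 (hC12 : C12_stmt) (hC5 : C5_stmt) (hC3 : C3_stmt) : C14_stmt := by
  classical
  intro Γ _ _ p hp M hM hpM N P hPN hNP hP ψ hψ hd
  set θ : N → ℂ := fun h => ψ (h : Γ) with hθdef
  have hθ : θ ∈ Irr N := hψ.2
  have hdθ : Defect p (⊤ : Subgroup N) θ 0 := by
    obtain ⟨n, hn, h0⟩ := hd
    refine ⟨n, hn, ?_⟩
    rw [Subgroup.card_top]
    exact h0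
  obtain ⟨x, hx, hx0⟩ := hC12 N p M hM hpM θ hθ hdθ
  set P' : Subgroup N := P.subgroupOf N with hP'def
  have hP' : IsPGroup p P' := hP.comap_subtype
  have hnorm : P'.Normal := by
    constructor
    intro n hn g
    have h1 : (g : Γ) ∈ nz P := hNP g.2
    have h2 : (n : Γ) ∈ P := hn
    have h3 := (Subgroup.mem_normalizer_iff.1 h1 (n : Γ)).1 h2
    exact h3
  by_cases hc : x ∈ cz P'
  · have hle : P' ≤ Subgroup.centralizer ({x} : Set N) := by
      intro y hy
      rw [Subgroup.mem_centralizer_iff]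
      intro h hh
      rw [Set.mem_singleton_iff] at hh
      subst hh
      exact ((Subgroup.mem_centralizer_iff.1 hc) y hy).symm
    have hdvd := Subgroup.card_dvd_of_le hle
    obtain ⟨k, hk⟩ := (IsPGroup.iff_card.1 hP')
    have hk0 : k = 0 := by
      by_contra h
      have : p ∣ Nat.card P' := by rw [hk]; exact dvd_pow_self p h
      exact hx (this.trans hdvd)
    rw [hk0, pow_zero] at hk
    have hbot : P' = ⊥ := Subgroup.card_eq_one.1 hk
    rw [eq_bot_iff]
    intro y hy
    have h1 : (⟨y, hPN hy⟩ : N) ∈ P' := hy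
    rw [hbot, Subgroup.mem_bot] at h1
    have h2 := congrArg Subtype.val h1
    exact Subgroup.mem_bot.2 h2
  · exfalso
    obtain ⟨_, h2, _, _⟩ := hC3 N
    obtain ⟨h3, h4⟩ := h2 θ x
    have h5 := hC5 N p M hM hpM P' hnorm hP' θ hθ _ h4 (by
      intro y hy
      rw [if_neg]
      intro hyc
      have hyc : IsConj x y := hyc
      obtain ⟨g, hg⟩ := isConj_iff.1 hyc
      apply hc
      have hyc2 := (Subgroup.mem_centralizer_iff.1 hy)
      rw [Subgroup.mem_centralizer_iff]
      intro h hh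
      have h6 : g * h * g⁻¹ ∈ P' := hnorm.conj_mem h hh g
      have h7 := hyc2 _ h6
      rw [← hg] at h7
      have h8 : g * (h * x) * g⁻¹ = g * (x * h) * g⁻¹ := by
        calc g * (h * x) * g⁻¹ = g * h * g⁻¹ * (g * x * g⁻¹) := by group
          _ = g * x * g⁻¹ * (g * h * g⁻¹) := h7
          _ = g * (x * h) * g⁻¹ := by group
      have h9 := mul_right_cancel h8
      exact mul_left_cancel h9)
    apply hx0
    rw [h3]
    exact h5

end Pool.Agent.DI
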